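import Pool.Agent.H17.RX.Stm

set_option autoImplicit false
open Filter Topology MeasureTheory
open scoped ComplexConjugate ENNReal

namespace Pool.Agent.H83.RX

open Pool.Agent.H17.RX

theorem t_SIG : S_SIG := by
  classical
  intro d C hC hle
  have hev : ∀ j, ∀ᶠ k in atTop, ∀ i ≤ j, C j k ⊆ C i k := by
    intro j
    induction j with
    | zero =>
      refine Filter.Eventually.of_forall fun k i hi => ?_
      rw [Nat.le_zero.1 hi]
    | succ j ih =>
      filter_upwards [ih, hle j] with k h1 h2 i hi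
      rcases Nat.lt_or_ge i (j + 1) with h | h
      · exact h2.trans (h1 i (by omega))
      · have : i = j + 1 := by omega
        rw [this]
  have hfr : ∀ j, ∃ᶠ k : ℕ in atTop, (Big (1 / ((k : ℝ) + 1)) (Nc k) (d k) (Nat.unpair j).1 (C j k)) ∧
      ∀ i ≤ j, C j k ⊆ C i k := fun j => (hC j (Nat.unpair j).1).and_eventually (hev j)
  obtain ⟨φ, hφ, hP⟩ := Filter.extraction_forall_of_frequently hfr
  let C' : ∀ k, Finset (Th (d k)) := fun k =>
    if h : ∃ j, φ j = k then C h.choose k else ∅
  have hC' : ∀ j, C' (φ j) = C j (φ j) := by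
    intro j
    have h : ∃ j', φ j' = φ j := ⟨j, rfl⟩
    have h2 : h.choose = j := hφ.injective h.choose_spec
    show (if h : ∃ j', φ j' = φ j then C h.choose (φ j) else ∅) = C j (φ j)
    rw [dif_pos h, h2]
  refine ⟨C', ?_, ?_⟩
  · intro m
    rw [Filter.frequently_atTop]
    intro n
    refine ⟨φ (Nat.pair m n), (Nat.right_le_pair m n).trans (hφ.id_le _), ?_⟩
    rw [hC']
    have := (hP (Nat.pair m n)).1
    rw [Nat.unpair_pair] at this
    exact this
  · intro j
    show ∀ᶠ k in atTop, C' k ⊆ C j k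
    filter_upwards [eventually_ge_atTop (φ j)] with k hk
    by_cases h : ∃ i, φ i = k
    · obtain ⟨i, rfl⟩ := h
      rw [hC']
      exact (hP i).2 j (hφ.le_iff_le.1 hk)
    · show (if h : ∃ j', φ j' = k then C h.choose k else ∅) ⊆ C j k
      rw [dif_neg h]
      exact Finset.empty_subset _

end Pool.Agent.H83.RX
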