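import Pool.Agent.H17.RX.Stm

set_option autoImplicit false
open Filter Topology MeasureTheory
open scoped ComplexConjugate ENNReal

namespace Pool.Agent.H83.RX

open Pool.Agent.H17.RX

/-- the block of an antilinear map, divided by `M` -/
theorem block_exists (d : ℕ → ℕ) (S : HH d →L⋆[ℂ] HH d) (M : ℝ) (hM : 0 < M) (hSM : ‖S‖ ≤ M)
    (k : ℕ) : ∃ Sk : F (d k) →L⋆[ℂ] F (d k), ‖Sk‖ ≤ 1 ∧
      ∀ x : F (d k), (S (lp.single 2 k x)) k = (M : ℂ) • Sk x := by
  let L : F (d k) →ₛₗ[starRingEnd ℂ] F (d k) :=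
    { toFun := fun x => ((M : ℂ)⁻¹) • (S (lp.single 2 k x)) k
      map_add' := by
        intro x y
        rw [lp.single_add, map_add]
        show ((M : ℂ)⁻¹) • ((S (lp.single 2 k x)) k + (S (lp.single 2 k y)) k) = _
        rw [smul_add]
      map_smul' := by
        intro c x
        rw [lp.single_smul, map_smulₛₗ]
        show ((M : ℂ)⁻¹) • ((starRingEnd ℂ) c • (S (lp.single 2 k x)) k) = _
        rw [smul_comm] }
  have hb : ∀ x, ‖L x‖ ≤ 1 * ‖x‖ := by
    intro x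
    show ‖((M : ℂ)⁻¹) • (S (lp.single 2 k x)) k‖ ≤ 1 * ‖x‖
    rw [norm_smul, norm_inv, Complex.norm_real, Real.norm_eq_abs, abs_of_pos hM, one_mul,
      inv_mul_le_iff₀ hM]
    calc ‖(S (lp.single 2 k x)) k‖ ≤ ‖S (lp.single 2 k x)‖ := lp.norm_apply_le_norm (by norm_num) _ _
      _ ≤ ‖S‖ * ‖(lp.single 2 k x : HH d)‖ := S.le_opNorm _
      _ = ‖S‖ * ‖x‖ := by rw [lp.norm_single (by norm_num)]
      _ ≤ M * ‖x‖ := mul_le_mul_of_nonneg_right hSM (norm_nonneg _)
  refine ⟨L.mkContinuous 1 hb, L.mkContinuous_norm_le zero_le_one hb, fun x => ?_⟩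
  show _ = (M : ℂ) • (((M : ℂ)⁻¹) • (S (lp.single 2 k x)) k)
  rw [smul_smul, mul_inv_cancel₀ (by exact_mod_cast hM.ne'), one_smul]

theorem t_TS : S_TS := by
  classical
  intro d C hC S ε hε
  set M : ℝ := max 1 ‖S‖ with hM
  have hM0 : 0 < M := lt_of_lt_of_le one_pos (le_max_left _ _)
  choose Sk hSk1 hSk2 using block_exists d S M hM0 (le_max_right _ _)
  obtain ⟨K, hK⟩ := exists_nat_gt (M / ε)
  let Q : ℕ → (k : ℕ) → Finset (Th (d k)) → Prop := fun j k D =>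
    D ⊆ C k ∧ Big (1 / ((k : ℝ) + 1)) (Nc k) (d k) (Nat.unpair j).1 D ∧
      ∀ θ ∈ D, ‖inner ℂ (zz θ) (Sk k (zz θ))‖ ≤ 1 / ((k : ℝ) + 1)
  have hfr : ∀ j, ∃ᶠ k : ℕ in atTop, (∃ D, Q j k D) ∧ K ≤ k := by
    intro j
    refine ((hC ((Nat.unpair j).1 + 1)).and_eventually (eventually_ge_atTop K)).mono ?_
    rintro k ⟨hk, hKk⟩
    refine ⟨?_, hKk⟩
    have hNc : 0 < Nc k := by unfold Nc; positivity
    have h2 := hk (fun _ => 0) (Sk k) (fun _ => ⟨0, hNc⟩) (by intro θ; simp) (by intro θ; simp)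
      (hSk1 k)
    obtain ⟨D, hD, hB, -, hin, -⟩ := h2
    exact ⟨D, hD, hB, hin⟩
  obtain ⟨φ, hφ, hP⟩ := Filter.extraction_forall_of_frequently hfr
  let C' : ∀ k, Finset (Th (d k)) := fun k =>
    if h : ∃ j, φ j = k ∧ ∃ D, Q j k D then h.choose_spec.2.choose else ∅
  have hC' : ∀ j, Q j (φ j) (C' (φ j)) := by
    intro j
    have h : ∃ j', φ j' = φ j ∧ ∃ D, Q j' (φ j) D := ⟨j, rfl, (hP j).1⟩
    have h2 : h.choose = j := hφ.injective h.choose_spec.1
    have h3 := h.choose_spec.2.choose_spec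
    have h4 : C' (φ j) = h.choose_spec.2.choose := by
      show (if h : ∃ j', φ j' = φ j ∧ ∃ D, Q j' (φ j) D then h.choose_spec.2.choose else ∅) = _
      rw [dif_pos h]
    rw [h4]
    have h5 : Q h.choose (φ j) h.choose_spec.2.choose := h3
    have h6 : ∀ i D, i = j → Q i (φ j) D → Q j (φ j) D := by rintro i D rfl h; exact h
    exact h6 _ _ h2 h5
  have hcase : ∀ k, (∃ j, φ j = k) ∨ C' k = ∅ := by
    intro k
    by_cases h : ∃ j, φ j = k
    · exact Or.inl h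
    · right
      show (if h : ∃ j, φ j = k ∧ ∃ D, Q j k D then h.choose_spec.2.choose else ∅) = ∅
      rw [dif_neg]
      rintro ⟨j, hj, -⟩
      exact h ⟨j, hj⟩
  refine ⟨C', ?_, ?_, ?_⟩
  · intro m
    rw [Filter.frequently_atTop]
    intro n
    refine ⟨φ (Nat.pair m n), (Nat.right_le_pair m n).trans (hφ.id_le _), ?_⟩
    have := (hC' (Nat.pair m n)).2.1
    rw [Nat.unpair_pair] at this
    exact this
  · refine Filter.Eventually.of_forall fun k => ?_
    rcases hcase k with ⟨j, rfl⟩ | h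
    · exact (hC' j).1
    · rw [h]; exact Finset.empty_subset _
  · intro k θ hθ
    rcases hcase k with ⟨j, rfl⟩ | h
    · have h1 := (hC' j).2.2 θ hθ
      have h2 : K ≤ φ j := (hP j).2
      have h3 : inner ℂ (zg d ⟨φ j, θ⟩) (S (zg d ⟨φ j, θ⟩)) =
          (M : ℂ) * inner ℂ (zz θ) (Sk (φ j) (zz θ)) := by
        unfold zg
        rw [lp.inner_single_left, hSk2 (φ j) (zz θ), inner_smul_right]
      rw [h3, norm_mul, Complex.norm_real, Real.norm_eq_abs, abs_of_pos hM0]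
      have h4 : M * (1 / ((φ j : ℝ) + 1)) ≤ ε := by
        have h5 : (K : ℝ) ≤ φ j := by exact_mod_cast h2
        rw [mul_one_div, div_le_iff₀ (by positivity)]
        rw [div_lt_iff₀ hε] at hK
        nlinarith
      exact (mul_le_mul_of_nonneg_left h1 hM0.le).trans h4
    · rw [h] at hθ
      exact absurd hθ (Finset.notMem_empty _)

end Pool.Agent.H83.RX
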